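import Pool.Agent.H29.FX.Targets

/-!
# Triples with few exponents (MP_7ecdd4_nt): row DFM
-/

set_option autoImplicit false

open Finset MvPolynomial

open Pool.Agent.H29.FX

namespace Pool.Agent.H76.TFX

/-- (DFM) a derivation in terms of the partial derivatives. -/
theorem pf_DFM : T_DFM := by
  intro n D f
  have h : D = ∑ v, (D (X v)) • (pderiv v : Dr n) := by
    apply MvPolynomial.derivation_ext
    intro i
    rw [show (∑ v, (D (X v)) • (pderiv v : Dr n)) (X i) =
        ∑ v, ((D (X v)) • (pderiv v : Dr n)) (X i) from by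
      rw [← Derivation.coeFnAddMonoidHom_apply, map_sum, Finset.sum_apply]
      rfl]
    simp only [Derivation.smul_apply, pderiv_X, smul_eq_mul]
    simp [Pi.single_apply]
  have h2 : D f = (∑ v, (D (X v)) • (pderiv v : Dr n)) f := by rw [← h]
  rw [h2, show (∑ v, (D (X v)) • (pderiv v : Dr n)) f =
        ∑ v, ((D (X v)) • (pderiv v : Dr n)) f from by
      rw [← Derivation.coeFnAddMonoidHom_apply, map_sum, Finset.sum_apply]
      rfl]
  simp only [Derivation.smul_apply, smul_eq_mul]
  exact Finset.sum_congr rfl (fun v _ => mul_comm _ _)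

end Pool.Agent.H76.TFX
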